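import Pool.Agent.W223.HZ.Stms

/-! Project HZ, part RED: the reduction. -/

set_option autoImplicit false

namespace Pool.Agent.W762.HZ.RED

open Pool.Agent.W223.HZ

theorem t (hL : Pool.Agent.W223.HZ.StmtLAT) (h1 : Pool.Agent.W223.HZ.StmtGD1)
    (h2 : Pool.Agent.W223.HZ.StmtGD2) : Pool.Agent.W223.HZ.StmtRED := by
  intro R hR x y k hxy hy hk hx
  have hR0 : 0 < R := by linarith
  have hx0 : (0 : ℝ) ≤ (x : ℝ) := le_trans (by positivity) hx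
  have hRx : R ^ 2 ≤ (x : ℝ) := by
    refine le_trans ?_ hx
    calc R ^ 2 = R ^ 2 * 1 := by ring
      _ ≤ R ^ 2 * R := mul_le_mul_of_nonneg_left (by linarith) (by positivity)
      _ = R ^ 3 := by ring
  have hαR : R ≤ √(x : ℝ) := Real.le_sqrt_of_sq_le hRx
  have hα0 : 0 < √(x : ℝ) := lt_of_lt_of_le hR0 hαR
  have hα2 : √(x : ℝ) ^ 2 = (x : ℝ) := Real.sq_sqrt hx0
  have hV : 1 ≤ √(x : ℝ) / R := by rwa [le_div_iff₀ hR0, one_mul]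
  obtain ⟨i, hi1, hi2⟩ := exists_nat_pow_near hV (one_lt_two : (1 : ℝ) < 2)
  obtain ⟨u₁, v₁, u₂, v₂, j, hdet, hv1, hu, hvV, hs1, hs2⟩ := hL (√(x : ℝ)) (√(x : ℝ) / R) hV
  have hT : (1 : ℝ) / 2 ≤ 2 ^ j / 2 := by
    have : (1 : ℝ) ≤ 2 ^ j := one_le_pow₀ (by norm_num)
    linarith
  have hV0 : (1 : ℝ) ≤ 2 ^ i := one_le_pow₀ (by norm_num)
  have hi3 : √(x : ℝ) / R < 2 * 2 ^ i := by
    rw [pow_succ] at hi2
    linarith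
  by_cases ha : cA x y u₁ v₁ = 0
  · left
    refine ⟨u₁, v₁, ⟨v₂, -u₂, by linarith⟩, hv1, ?_, ha⟩
    have h3 : |(u₁ : ℝ) - √(x : ℝ) * v₁| * (√(x : ℝ) / R) ≤ 1 := hu
    rw [← mul_div_assoc, div_le_one hR0] at h3
    exact h3
  · right
    have g1 := h1 R (√(x : ℝ)) (√(x : ℝ) / R) (2 ^ i) (2 ^ j / 2) hR hα0 rfl hV0 hi1 hi3 hT x y k hα2
      hy hxy hk u₁ v₁ u₂ v₂ hdet hv1 hs1 hs2
    have g2 := h2 R (√(x : ℝ)) (√(x : ℝ) / R) (2 ^ i) (2 ^ j / 2) hR hα0 rfl hV0 hi1 hi3 hT x y hα2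
      u₁ v₁ u₂ v₂ hdet hv1 hs1 hs2
    exact ⟨i, j, _, _, _, _, _, _, hi1, hi2, ha, g1.1, g2, g1.2⟩

end Pool.Agent.W762.HZ.RED
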